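import Mathlib

/-!
# Lines and points, matchings, dense sets, leveled machines: definitions

`Pt q = F_q × F_q` serves both as the set of (non-vertical) lines and as the set of points of the
affine plane; `inc u w` says that the point `w` lies on the line `u`.  An input is a pair
`z = (x, y)` of a sequence of `N` lines and a sequence of `N` points.
-/

namespace Pool.Agent.helper24.BP

open Finset Classical

noncomputable section

/-- lines and points -/
abbrev Pt (q : ℕ) := ZMod q × ZMod q

/-- sequences of `N` lines (or of `N` points) -/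
abbrev Asg (N q : ℕ) := Fin N → Pt q

/-- inputs -/
abbrev Inp (N q : ℕ) := Asg N q × Asg N q

/-- pairs (line index, point index) -/
abbrev Pair (N : ℕ) := Fin N × Fin N

/-- the point `w` lies on the line `u` -/
def inc {q : ℕ} (u w : Pt q) : Prop := w.2 = u.1 * w.1 + u.2

/-- the matchings of size `s` between `X` and `Y` -/
def Mt {N : ℕ} (X Y : Finset (Fin N)) (s : ℕ) : Finset (Finset (Pair N)) :=
  ((X ×ˢ Y).powersetCard s).filter fun T =>
    (∀ p ∈ T, ∀ p' ∈ T, p.1 = p'.1 → p = p') ∧ (∀ p ∈ T, ∀ p' ∈ T, p.2 = p'.2 → p = p')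

/-- all pairs of `T` are incident in `z` -/
def IncT {N q : ℕ} (T : Finset (Pair N)) (z : Inp N q) : Prop :=
  ∀ p ∈ T, inc (z.1 p.1) (z.2 p.2)

/-- at least `t` of the lines pass through one of the points -/
def Yes {N q : ℕ} (t : ℕ) (z : Inp N q) : Prop :=
  t ≤ (univ.filter fun i : Fin N => ∃ j : Fin N, inc (z.1 i) (z.2 j)).card

/-- the points have distinct abscissas -/
def Gen {N q : ℕ} (y : Asg N q) : Prop := ∀ j j' : Fin N, (y j).1 = (y j').1 → j = j'

/-- the lines which pass through a point they are not matched to by `T` -/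
def bad {N q : ℕ} (T : Finset (Pair N)) (z : Inp N q) : Finset (Fin N) :=
  univ.filter fun i => ∃ j, (i, j) ∉ T ∧ inc (z.1 i) (z.2 j)

/-- `a` is constant on `F` and spread outside `F` -/
structure Dense {N q : ℕ} (ξ : ℕ) (F : Finset (Fin N)) (a : Finset (Asg N q)) : Prop where
  ne : a.Nonempty
  agree : ∀ x ∈ a, ∀ x' ∈ a, ∀ i ∈ F, x i = x' i
  spread : ∀ K : Finset (Fin N), Disjoint K F → ∀ u : Asg N q,
    (a.filter fun x => ∀ i ∈ K, x i = u i).card * (q ^ 2) ^ K.card ≤ ξ ^ K.card * a.card

/-- deterministic machines reading an input of `Inp N q` at arbitrary positions -/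
structure DMach (N q : ℕ) (Q : Type) where
  start : Q
  query : Q → Option (Fin N ⊕ Fin N)
  step : Q → Inp N q → Q
  acc : Q → Prop
  loc : ∀ (s : Q) (z z' : Inp N q),
    (∀ i, query s = some (Sum.inl i) → z.1 i = z'.1 i) →
    (∀ j, query s = some (Sum.inr j) → z.2 j = z'.2 j) → step s z = step s z'

/-- the state after `n` steps -/
def DMach.run {N q : ℕ} {Q : Type} (M : DMach N q Q) (z : Inp N q) : ℕ → Q
  | 0 => M.start
  | n + 1 => M.step (M.run z n) z

/-- the lines read in the segments (of length `ℓ`) of colour `false` -/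
def RU {N q : ℕ} {Q : Type} (M : DMach N q Q) {r : ℕ} (ℓ : ℕ) (σ : Fin r → Bool) (z : Inp N q) :
    Finset (Fin N) :=
  univ.filter fun i => ∃ p : Fin r, ∃ s : Fin ℓ, σ p = false ∧
    M.query (M.run z (p * ℓ + s)) = some (Sum.inl i)

/-- the points read in the segments (of length `ℓ`) of colour `true` -/
def RV {N q : ℕ} {Q : Type} (M : DMach N q Q) {r : ℕ} (ℓ : ℕ) (σ : Fin r → Bool) (z : Inp N q) :
    Finset (Fin N) :=
  univ.filter fun j => ∃ p : Fin r, ∃ s : Fin ℓ, σ p = true ∧
    M.query (M.run z (p * ℓ + s)) = some (Sum.inr j)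

end

end Pool.Agent.helper24.BP
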