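import Pool.Agent.helper12.BP.M1
import Pool.Agent.helper3.BP.M34
import Pool.Agent.helper80.BP.M6
import Pool.Agent.helper80.BP.M7a
import Pool.Agent.helper80.BP.M9a

/-!
# The planted measure of a union of dense rectangles of yes-instances
-/

namespace Pool.Agent.helper24.BP

open Finset Classical

theorem dense_bound {N q : ℕ} [Fact q.Prime] {t g n1 : ℕ} {ι : Type} [Fintype ι]
    (a b : ι → Finset (Asg N q)) (FU FV : ι → Finset (Fin N))
    (ha : ∀ i, Dense N (FU i) (a i)) (hb : ∀ i, Dense N (FV i) (b i))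
    (hFU : ∀ i, (FU i).card + n1 ≤ N) (hFV : ∀ i, (FV i).card + n1 ≤ N)
    (hdisj : ∀ i j, i ≠ j → Disjoint (a i ×ˢ b i) (a j ×ˢ b j))
    (hyes : ∀ i, ∀ z ∈ a i ×ˢ b i, Yes t z) (ht : 1 ≤ t) (htN : t ≤ N) (hN : 2 ≤ N)
    (hq : N ^ 8 < q) (hg : g ≤ t) (hgn : g ≤ n1) (h : 9 * N ^ 2 * g ≤ (n1 - g) ^ 2 * t) :
    3 ^ g * (∑ T ∈ Mt (univ : Finset (Fin N)) univ t,
      ((univ : Finset (Inp N q)).filter fun z =>
        IncT T z ∧ Gen z.2 ∧ ∃ i, z ∈ a i ×ˢ b i).card) * q ^ t ≤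
      2 * (t + 1) * (Mt (univ : Finset (Fin N)) univ t).card * q ^ (4 * N) := by
  have hN1 : 1 ≤ N := by omega
  have h4 : 2 ^ 4 ≤ N ^ 4 := Nat.pow_le_pow_left hN 4
  have hq1 : (4 * g * N) ^ 2 ≤ q := by
    have h1 : (4 * g * N) ^ 2 ≤ (4 * N * N) ^ 2 := by
      apply Nat.pow_le_pow_left
      apply Nat.mul_le_mul_right
      apply Nat.mul_le_mul_left
      exact hg.trans htN
    have h2 : (4 * N * N) ^ 2 = 16 * N ^ 4 := by ring
    have h3 : 16 * N ^ 4 ≤ N ^ 8 := by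
      have : N ^ 8 = N ^ 4 * N ^ 4 := by ring
      rw [this]
      exact Nat.mul_le_mul_right _ (by simpa using h4)
    omega
  have hq2 : N ^ 2 * N < q := by
    have h1 : N ^ 2 * N = N ^ 3 := by ring
    rw [h1]
    exact (Nat.pow_le_pow_right hN1 (by norm_num)).trans_lt hq
  exact Pool.Agent.helper80.BP.dense_bound_of a b FU FV hFU hFV hdisj ht htN hN hq hg hgn h
    Pool.Agent.helper12.BP.card_Mt_succ
    (fun X Y {n1 t g j} h1 h2 h3 h4 h5 h6 h7 =>
      Pool.Agent.helper12.BP.mt_ratio X Y h1 h2 h3 h4 h5 h6 h7)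
    (fun {s T} hT => Pool.Agent.helper80.BP.planted_upper hT)
    (fun t j => Pool.Agent.helper80.BP.bad_count t j)
    (fun i t j => Pool.Agent.helper80.BP.part_ineq_of (ha i) (hb i)
      (fun _ hR => Pool.Agent.helper3.BP.inc_lower (ha i) (hb i) hq1 hR)
      (fun _ _ hT hf => Pool.Agent.helper3.BP.inc_upper (ha i) (hb i) hT hf) t j)
    (fun i T hT z hz => Pool.Agent.helper3.BP.bad_of_yes (ha i) (hb i) hq2 (hyes i) hT hz)

end Pool.Agent.helper24.BP
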