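import Pool.Agent.helper24.BP.DenseBound
import Pool.Agent.helper8.BP.M5
import Pool.Agent.helper8.BP.M8
import Pool.Agent.helper8.BP.M8c

namespace Pool.Agent.helper24.BP

open Finset Classical

/-- a set of sequences which are constant off `S` is small -/
theorem card_le_of_agree {N q : ℕ} [Fact q.Prime] (S : Finset (Fin N)) (a : Finset (Asg N q))
    (h : ∀ x ∈ a, ∀ x' ∈ a, ∀ i ∉ S, x i = x' i) : a.card ≤ (q ^ 2) ^ S.card := by
  have h1 : Fintype.card ({i // i ∈ S} → Pt q) = (q ^ 2) ^ S.card := by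
    simp [Pt, ZMod.card, pow_two]
  rw [← h1, ← card_univ]
  refine card_le_card_of_injOn (fun x => fun i => x i.1) (fun _ _ => mem_coe.mpr (mem_univ _)) ?_
  intro x hx x' hx' hxx
  funext i
  by_cases hi : i ∈ S
  · exact congrFun hxx ⟨i, hi⟩
  · exact h x hx x' hx' i hi

/-- the bound for one colouring -/
theorem det_bound_one {N q : ℕ} [Fact q.Prime] {Q : Type} [Fintype Q] (M : DMach N q Q)
    {r ℓ n0 m t g : ℕ} (σ : Fin r → Bool) (hN : 2 ≤ N) (hq : N ^ 8 < q) (hn0 : n0 ≤ N)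
    (ht : 1 ≤ t) (htN : t ≤ N)
    (hg : g ≤ t) (hgm : g + m ≤ n0) (h : 9 * N ^ 2 * g ≤ (n0 - m - g) ^ 2 * t)
    (hM : ∀ z, M.acc (M.run z (r * ℓ)) → Yes t z) :
    3 ^ g * N ^ m * (∑ T ∈ Mt (univ : Finset (Fin N)) univ t,
      ((univ : Finset (Inp N q)).filter fun z =>
        IncT T z ∧ Gen z.2 ∧ M.acc (M.run z (r * ℓ)) ∧ n0 ≤ (RU M ℓ σ z)ᶜ.card ∧
          n0 ≤ (RV M ℓ σ z)ᶜ.card).card) * q ^ t ≤
      (Mt (univ : Finset (Fin N)) univ t).card * q ^ (4 * N) *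
        (2 * (t + 1) * N ^ m +
          2 * 3 ^ g * Fintype.card Q ^ (r + 1) * (N.choose n0) ^ 2 * q ^ t) := by
  obtain ⟨ι, hι, a, b, SU, SV, hcard, hS, hag, hbg, hdisj, hcov⟩ :=
    Pool.Agent.helper8.BP.exists_rectangles M ℓ σ hn0
  have hN1 : 1 ≤ N := by omega
  have hcU : ∀ κ, ((SU κ)ᶜ).card = N - n0 := fun κ => by rw [card_compl, (hS κ).1]; simp
  have hcV : ∀ κ, ((SV κ)ᶜ).card = N - n0 := fun κ => by rw [card_compl, (hS κ).2]; simp
  -- the decompositions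
  have hda := fun κ => Pool.Agent.helper8.BP.decompose hN1 m (SU κ)ᶜ (a κ)
    (fun x hx x' hx' i hi => hag κ x hx x' hx' i (mem_compl.mp hi))
  have hdb := fun κ => Pool.Agent.helper8.BP.decompose hN1 m (SV κ)ᶜ (b κ)
    (fun x hx x' hx' i hi => hbg κ x hx x' hx' i (mem_compl.mp hi))
  choose PA loA hPA1 hPA2 hPA3 hPA4 using hda
  choose PB loB hPB1 hPB2 hPB3 hPB4 using hdb
  choose! FA hFA using fun κ p (hp : p ∈ PA κ) => (hPA1 κ p hp).2
  choose! FB hFB using fun κ p (hp : p ∈ PB κ) => (hPB1 κ p hp).2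
  -- the dense parts
  let J := Σ κ : ι, {p // p ∈ PA κ} × {p // p ∈ PB κ}
  have hdense := dense_bound (q := q) (t := t) (g := g) (n1 := n0 - m) (ι := J)
    (fun j => j.2.1.1) (fun j => j.2.2.1) (fun j => FA j.1 j.2.1.1) (fun j => FB j.1 j.2.2.1)
    (fun j => (hFA j.1 _ j.2.1.2).2.2) (fun j => (hFB j.1 _ j.2.2.2).2.2)
    (fun j => by
      have := (hFA j.1 _ j.2.1.2).2.1
      rw [hcU] at this
      omega)
    (fun j => by
      have := (hFB j.1 _ j.2.2.2).2.1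
      rw [hcV] at this
      omega)
    (by
      rintro ⟨κ, ⟨p, hp⟩, ⟨s, hs⟩⟩ ⟨κ', ⟨p', hp'⟩, ⟨s', hs'⟩⟩ hne
      rw [disjoint_left]
      intro z hz hz'
      rw [mem_product] at hz hz'
      have hz1 : z ∈ a κ ×ˢ b κ := mem_product.mpr ⟨(hPA1 κ p hp).1 hz.1, (hPB1 κ s hs).1 hz.2⟩
      have hz2 : z ∈ a κ' ×ˢ b κ' :=
        mem_product.mpr ⟨(hPA1 κ' p' hp').1 hz'.1, (hPB1 κ' s' hs').1 hz'.2⟩
      have hκ : κ = κ' := by
        by_contra hκ
        exact disjoint_left.mp (hdisj κ κ' hκ) hz1 hz2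
      subst hκ
      have hpp : p = p' := by
        by_contra hpp
        exact disjoint_left.mp (hPA2 κ p hp p' hp' hpp) hz.1 hz'.1
      have hss : s = s' := by
        by_contra hss
        exact disjoint_left.mp (hPB2 κ s hs s' hs' hss) hz.2 hz'.2
      subst hpp hss
      exact hne rfl)
    (by
      rintro ⟨κ, ⟨p, hp⟩, ⟨s, hs⟩⟩ z hz
      rw [mem_product] at hz
      have hz1 : z ∈ a κ ×ˢ b κ := mem_product.mpr ⟨(hPA1 κ p hp).1 hz.1, (hPB1 κ s hs).1 hz.2⟩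
      exact hM z ((hcov z).1 ⟨κ, hz1⟩).1)
    ht htN hN hq hg (by omega) h
  -- the leftovers
  set Left : Finset (Inp N q) := univ.biUnion fun κ : ι =>
    (loA κ ×ˢ b κ) ∪ (a κ ×ˢ loB κ) with hLeft
  have hLcard : N ^ m * Left.card ≤
      2 * (Fintype.card Q ^ (r + 1) * (N.choose n0) ^ 2 * q ^ (4 * N)) := by
    have h1 : ∀ κ : ι, N ^ m * ((loA κ ×ˢ b κ) ∪ (a κ ×ˢ loB κ)).card ≤
        2 * ((q ^ 2) ^ n0 * (q ^ 2) ^ n0) := by
      intro κ
      have hb1 : (b κ).card ≤ (q ^ 2) ^ n0 := by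
        have := card_le_of_agree (SV κ) (b κ) (hbg κ)
        rwa [(hS κ).2] at this
      have ha1 : (a κ).card ≤ (q ^ 2) ^ n0 := by
        have := card_le_of_agree (SU κ) (a κ) (hag κ)
        rwa [(hS κ).1] at this
      have h2 : (loA κ).card * N ^ m ≤ (q ^ 2) ^ n0 := by
        have := hPA4 κ
        rw [hcU] at this
        rwa [Nat.sub_sub_self hn0] at this
      have h3 : (loB κ).card * N ^ m ≤ (q ^ 2) ^ n0 := by
        have := hPB4 κ
        rw [hcV] at this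
        rwa [Nat.sub_sub_self hn0] at this
      calc N ^ m * ((loA κ ×ˢ b κ) ∪ (a κ ×ˢ loB κ)).card
          ≤ N ^ m * ((loA κ).card * (b κ).card + (a κ).card * (loB κ).card) := by
            apply Nat.mul_le_mul_left
            refine (card_union_le _ _).trans ?_
            rw [card_product, card_product]
        _ = ((loA κ).card * N ^ m) * (b κ).card + (a κ).card * ((loB κ).card * N ^ m) := by ring
        _ ≤ (q ^ 2) ^ n0 * (q ^ 2) ^ n0 + (q ^ 2) ^ n0 * (q ^ 2) ^ n0 := by gcongr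
        _ = _ := by ring
    calc N ^ m * Left.card ≤ N ^ m * ∑ κ : ι, ((loA κ ×ˢ b κ) ∪ (a κ ×ˢ loB κ)).card := by
          apply Nat.mul_le_mul_left
          rw [hLeft]
          exact card_biUnion_le
      _ ≤ ∑ κ : ι, 2 * ((q ^ 2) ^ n0 * (q ^ 2) ^ n0) := by
          rw [mul_sum]
          exact sum_le_sum fun κ _ => h1 κ
      _ = Fintype.card ι * (2 * ((q ^ 2) ^ n0 * (q ^ 2) ^ n0)) := by
          rw [sum_const, card_univ, smul_eq_mul]
      _ ≤ (Fintype.card Q ^ (r + 1) * (N.choose n0 * (q ^ 2) ^ (N - n0)) ^ 2) *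
          (2 * ((q ^ 2) ^ n0 * (q ^ 2) ^ n0)) := Nat.mul_le_mul_right _ hcard
      _ = _ := by
          have e1 : (q ^ 2) ^ (N - n0) * (q ^ 2) ^ n0 = (q ^ 2) ^ N := by
            rw [← pow_add]; congr 1; omega
          have e2 : q ^ (4 * N) = (q ^ 2) ^ N * (q ^ 2) ^ N := by
            rw [← pow_mul, ← pow_add]; congr 1; ring
          rw [e2, ← e1]
          ring
  -- every accepted good input is in a dense part or in a leftover
  have hsplit : ∀ T : Finset (Pair N), ((univ : Finset (Inp N q)).filter fun z =>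
        IncT T z ∧ Gen z.2 ∧ M.acc (M.run z (r * ℓ)) ∧ n0 ≤ (RU M ℓ σ z)ᶜ.card ∧
          n0 ≤ (RV M ℓ σ z)ᶜ.card).card ≤
      ((univ : Finset (Inp N q)).filter fun z =>
        IncT T z ∧ Gen z.2 ∧ ∃ j : J, z ∈ j.2.1.1 ×ˢ j.2.2.1).card + Left.card := by
    intro T
    refine le_trans (card_le_card ?_) (card_union_le _ _)
    intro z hz
    rw [mem_filter] at hz
    obtain ⟨κ, hκ⟩ := (hcov z).2 hz.2.2.2
    rw [mem_product] at hκ
    rw [mem_union, mem_filter]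
    by_cases hA : z.1 ∈ loA κ
    · right
      rw [hLeft, mem_biUnion]
      exact ⟨κ, mem_univ _, mem_union_left _ (mem_product.mpr ⟨hA, hκ.2⟩)⟩
    by_cases hB : z.2 ∈ loB κ
    · right
      rw [hLeft, mem_biUnion]
      exact ⟨κ, mem_univ _, mem_union_right _ (mem_product.mpr ⟨hκ.1, hB⟩)⟩
    left
    obtain ⟨p, hp, hzp⟩ := (hPA3 κ z.1 hκ.1).resolve_left hA
    obtain ⟨s, hs, hzs⟩ := (hPB3 κ z.2 hκ.2).resolve_left hB
    exact ⟨mem_univ _, hz.2.1, hz.2.2.1, ⟨κ, ⟨p, hp⟩, ⟨s, hs⟩⟩, mem_product.mpr ⟨hzp, hzs⟩⟩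
  set MT := Mt (univ : Finset (Fin N)) univ t with hMT
  set DS := ∑ T ∈ MT, ((univ : Finset (Inp N q)).filter fun z =>
        IncT T z ∧ Gen z.2 ∧ ∃ j : J, z ∈ j.2.1.1 ×ˢ j.2.2.1).card with hDS
  have hsum : (∑ T ∈ MT,
      ((univ : Finset (Inp N q)).filter fun z =>
        IncT T z ∧ Gen z.2 ∧ M.acc (M.run z (r * ℓ)) ∧ n0 ≤ (RU M ℓ σ z)ᶜ.card ∧
          n0 ≤ (RV M ℓ σ z)ᶜ.card).card) ≤ DS + MT.card * Left.card := by
    calc _ ≤ ∑ T ∈ MT, (((univ : Finset (Inp N q)).filter fun z =>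
        IncT T z ∧ Gen z.2 ∧ ∃ j : J, z ∈ j.2.1.1 ×ˢ j.2.2.1).card + Left.card) :=
          sum_le_sum fun T _ => hsplit T
      _ = _ := by rw [sum_add_distrib, sum_const, smul_eq_mul]
  calc 3 ^ g * N ^ m * _ * q ^ t ≤ 3 ^ g * N ^ m * (DS + MT.card * Left.card) * q ^ t := by
        gcongr
    _ = N ^ m * (3 ^ g * DS * q ^ t) + 3 ^ g * MT.card * q ^ t * (N ^ m * Left.card) := by ring
    _ ≤ N ^ m * (2 * (t + 1) * MT.card * q ^ (4 * N)) + 3 ^ g * MT.card * q ^ t *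
        (2 * (Fintype.card Q ^ (r + 1) * (N.choose n0) ^ 2 * q ^ (4 * N))) := by
        gcongr
    _ = _ := by ring

/-- **M9b** (from M5, M8, M9a) -/
theorem det_bound {N q : ℕ} [Fact q.Prime] {Q : Type} [Fintype Q] (M : DMach N q Q)
    {r ℓ K n0 m t g : ℕ} (hN : 2 ≤ N) (hq : N ^ 8 < q) (hK : 1 ≤ K) (h1 : r * ℓ ≤ K * N)
    (h2 : 2 * K ^ 2 ≤ r) (h3 : 2 ^ (4 * K + 3) * n0 = N) (ht : 1 ≤ t) (htN : t ≤ N)
    (hg : g ≤ t) (hgm : g + m ≤ n0) (h : 9 * N ^ 2 * g ≤ (n0 - m - g) ^ 2 * t)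
    (hM : ∀ z, M.acc (M.run z (r * ℓ)) → Yes t z) :
    3 ^ g * N ^ m * (∑ T ∈ Mt (univ : Finset (Fin N)) univ t,
      ((univ : Finset (Inp N q)).filter fun z =>
        IncT T z ∧ Gen z.2 ∧ M.acc (M.run z (r * ℓ))).card) * q ^ t ≤
      2 ^ r * (Mt (univ : Finset (Fin N)) univ t).card * q ^ (4 * N) *
        (2 * (t + 1) * N ^ m +
          2 * 3 ^ g * Fintype.card Q ^ (r + 1) * (N.choose n0) ^ 2 * q ^ t) := by
  have hn0 : n0 ≤ N := by
    rw [← h3]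
    exact Nat.le_mul_of_pos_left _ (by positivity)
  set MT := Mt (univ : Finset (Fin N)) univ t with hMT
  have hcov : (∑ T ∈ MT,
      ((univ : Finset (Inp N q)).filter fun z =>
        IncT T z ∧ Gen z.2 ∧ M.acc (M.run z (r * ℓ))).card) ≤
      ∑ σ : Fin r → Bool, ∑ T ∈ MT, ((univ : Finset (Inp N q)).filter fun z =>
        IncT T z ∧ Gen z.2 ∧ M.acc (M.run z (r * ℓ)) ∧ n0 ≤ (RU M ℓ σ z)ᶜ.card ∧
          n0 ≤ (RV M ℓ σ z)ᶜ.card).card := by
    rw [sum_comm]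
    refine sum_le_sum fun T _ => ?_
    refine le_trans (card_le_card ?_) card_biUnion_le
    intro z hz
    rw [mem_filter] at hz
    obtain ⟨σ, hσ⟩ := Pool.Agent.helper8.BP.exists_sigma M z hK h1 h2 h3
    rw [mem_biUnion]
    exact ⟨σ, mem_univ _, by
      rw [mem_filter]; exact ⟨mem_univ _, hz.2.1, hz.2.2.1, hz.2.2.2, hσ.1, hσ.2⟩⟩
  calc 3 ^ g * N ^ m * _ * q ^ t ≤ 3 ^ g * N ^ m * (∑ σ : Fin r → Bool, ∑ T ∈ MT,
        ((univ : Finset (Inp N q)).filter fun z =>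
        IncT T z ∧ Gen z.2 ∧ M.acc (M.run z (r * ℓ)) ∧ n0 ≤ (RU M ℓ σ z)ᶜ.card ∧
          n0 ≤ (RV M ℓ σ z)ᶜ.card).card) * q ^ t := by gcongr
    _ = ∑ σ : Fin r → Bool, 3 ^ g * N ^ m * (∑ T ∈ MT,
        ((univ : Finset (Inp N q)).filter fun z =>
        IncT T z ∧ Gen z.2 ∧ M.acc (M.run z (r * ℓ)) ∧ n0 ≤ (RU M ℓ σ z)ᶜ.card ∧
          n0 ≤ (RV M ℓ σ z)ᶜ.card).card) * q ^ t := by
        rw [mul_sum, sum_mul]
    _ ≤ ∑ σ : Fin r → Bool, MT.card * q ^ (4 * N) *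
        (2 * (t + 1) * N ^ m +
          2 * 3 ^ g * Fintype.card Q ^ (r + 1) * (N.choose n0) ^ 2 * q ^ t) :=
        sum_le_sum fun σ _ => det_bound_one M σ hN hq hn0 ht htN hg hgm h hM
    _ = _ := by
        rw [sum_const, card_univ, smul_eq_mul]
        simp only [Fintype.card_fun, Fintype.card_bool, Fintype.card_fin]
        ring

end Pool.Agent.helper24.BP
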