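import Pool.Agent.helper24.BP.Defs

/-!
# Nondeterministic random-access machines (branching programs)
-/

namespace Pool.Agent.helper24.BP

open Finset Classical

noncomputable section

/-- A nondeterministic random-access machine for inputs of `n` words over the alphabet `Fin W`: a
finite set of states (the whole configuration apart from the read-only input), a start state, for
each state the position of the input word read in it, the set of possible next states as a function
of the state and of the word read, and the accepting states. -/
structure Machine (n W : ℕ) where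
  Q : Type
  fin : Fintype Q
  start : Q
  query : Q → Fin n
  next : Q → Fin W → Finset Q
  acc : Set Q

/-- the number of states -/
def Machine.size {n W : ℕ} (M : Machine n W) : ℕ := @Fintype.card M.Q M.fin

/-- `Comp M x T G s`: the machine has a computation on `x` with `T` steps, which guesses `G` bits and
ends in the state `s`.  A step which chooses one of `k` next states guesses `⌈log₂ k⌉` bits. -/
inductive Comp {n W : ℕ} (M : Machine n W) (x : Fin n → Fin W) : ℕ → ℕ → M.Q → Prop
  | start : Comp M x 0 0 M.start
  | step {T G : ℕ} {s s' : M.Q} : Comp M x T G s → s' ∈ M.next s (x (M.query s)) →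
      Comp M x (T + 1) (G + Nat.clog 2 (M.next s (x (M.query s))).card) s'

/-- The machine accepts exactly the inputs with `f x`, each of them by some computation of at most
`T` steps which guesses at most `G` bits. -/
def Computes {n W : ℕ} (M : Machine n W) (f : (Fin n → Fin W) → Prop) (T G : ℝ) : Prop :=
  ∀ x, (∀ T' G' s, Comp M x T' G' s → s ∈ M.acc → f x) ∧
    (f x → ∃ T' G' : ℕ, ∃ s : M.Q, (T' : ℝ) ≤ T ∧ (G' : ℝ) ≤ G ∧ s ∈ M.acc ∧ Comp M x T' G' s)

/-- the input of `n ≥ 2 N` words given by `N` lines and `N` points (padded) -/
def emb {N q n W : ℕ} (e : Fin W ≃ Pt q) (z : Inp N q) : Fin n → Fin W := fun i =>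
  if h : i.1 < N then e.symm (z.1 ⟨i.1, h⟩)
  else if h' : i.1 - N < N then e.symm (z.2 ⟨i.1 - N, h'⟩) else e.symm 0

/-- the `N` lines and `N` points given by the first `2 N` words -/
def dec {N q n W : ℕ} (h : 2 * N ≤ n) (e : Fin W ≃ Pt q) (x : Fin n → Fin W) : Inp N q :=
  (fun i => e (x ⟨i.1, by omega⟩), fun j => e (x ⟨N + j.1, by omega⟩))

theorem dec_emb {N q n W : ℕ} (h : 2 * N ≤ n) (e : Fin W ≃ Pt q) (z : Inp N q) :
    dec h e (emb (n := n) e z) = z := by
  apply Prod.ext
  · funext i
    simp [dec, emb]
  · funext j
    simp [dec, emb]

end

end Pool.Agent.helper24.BP
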