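import Pool.Agent.helper24.BP.Det
import Pool.Agent.helper26.BP.Cover
import Pool.Agent.helper45.BP.M11
import Pool.Agent.helper12.BP.M12b

/-!
# The guess hierarchy for random-access machines
-/

namespace Pool.Agent.helper24.BP

open Finset Classical

theorem card_state {n W : ℕ} (M : Machine n W) (G : ℕ) :
    @Fintype.card (Option (M.Q × Fin (G + 1)))
      (@instFintypeOption _ (@instFintypeProd _ _ M.fin _)) = M.size * (G + 1) + 1 := by
  letI := M.fin
  simp [Machine.size]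

/-- **M12a** (from M6, M9b, M10, M11) -/
theorem per_n {N n t : ℕ} (hN : 2 ≤ N) (h2N : 2 * N ≤ n) (ht : 1 ≤ t) (htN : t ≤ N) :
    ∃ (W : ℕ) (f : (Fin n → Fin W) → Prop), W ≤ 4 * N ^ 16 ∧
      (∃ M : Machine n W, M.size ≤ 2 + t * N + t * N * W * N ∧
        Computes M f (2 * t + 1 : ℕ) ((2 * t + 1) * Nat.clog 2 N : ℕ)) ∧
      ∀ (K r ℓ n0 m g G T : ℕ) (M : Machine n W), 1 ≤ K → 2 ^ (4 * K + 3) * n0 = N →
        r * ℓ ≤ K * N → T ≤ r * ℓ → 2 * K ^ 2 ≤ r → g ≤ t → g + m ≤ n0 →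
        9 * N ^ 2 * g ≤ (n0 - m - g) ^ 2 * t → Computes M f T G →
        3 ^ g * N ^ m ≤ 2 ^ (G + r + 2) * ((t + 1) * N ^ m +
          3 ^ g * (M.size * (G + 1) + 1) ^ (r + 1) * (N.choose n0) ^ 2 * (2 * N ^ 8) ^ t) := by
  obtain ⟨q, hqp, hq1, hq2⟩ := Nat.exists_prime_lt_and_le_two_mul (N ^ 8) (by positivity)
  haveI : Fact q.Prime := ⟨hqp⟩
  have hcard : Fintype.card (Pt q) = q ^ 2 := by
    simp [Pt, ZMod.card, pow_two]
  let e : Fin (q ^ 2) ≃ Pt q := (Fintype.equivFinOfCardEq hcard).symm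
  refine ⟨q ^ 2, fun x => Yes t (dec h2N e x), ?_,
    Pool.Agent.helper45.BP.upper (by omega) ht h2N e, ?_⟩
  · calc q ^ 2 ≤ (2 * N ^ 8) ^ 2 := Nat.pow_le_pow_left hq2 2
      _ = 4 * N ^ 16 := by ring
  intro K r ℓ n0 m g G T M hK h3 h1 hT h2 hg hgm h hcomp
  obtain ⟨D, hD1, hD2⟩ := nondet_cover h2N e M T G hcomp
  letI := M.fin
  have hN2 : N ^ 2 ≤ q := (Nat.pow_le_pow_right (by omega) (by norm_num)).trans hq1.le
  -- the bound for each guess string
  have hdet : ∀ s : Fin G → Bool,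
      3 ^ g * N ^ m * (∑ T ∈ Mt (univ : Finset (Fin N)) univ t,
        ((univ : Finset (Inp N q)).filter fun z =>
          IncT T z ∧ Gen z.2 ∧ (D s).acc ((D s).run z (r * ℓ))).card) * q ^ t ≤
        2 ^ r * (Mt (univ : Finset (Fin N)) univ t).card * q ^ (4 * N) *
          (2 * (t + 1) * N ^ m +
            2 * 3 ^ g * (M.size * (G + 1) + 1) ^ (r + 1) * (N.choose n0) ^ 2 * q ^ t) := by
    intro s
    have hsound : ∀ z, (D s).acc ((D s).run z (r * ℓ)) → Yes t z := by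
      intro z hz
      have := hD1 s z _ hz
      simp only [dec_emb] at this
      exact this
    have := det_bound (D s) hN hq1 hK h1 h2 h3 ht htN hg hgm h hsound
    rw [card_state] at this
    exact this
  set MT := Mt (univ : Finset (Fin N)) univ t with hMT
  have hMTpos : 0 < MT.card := Pool.Agent.helper80.BP.Mt_card_pos htN
  set X := 2 * (t + 1) * N ^ m +
    2 * 3 ^ g * (M.size * (G + 1) + 1) ^ (r + 1) * (N.choose n0) ^ 2 * q ^ t with hX
  -- planted lower bound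
  have hlow : MT.card * q ^ (4 * N) ≤ 2 * q ^ t * ∑ T ∈ MT,
      ((univ : Finset (Inp N q)).filter fun z => IncT T z ∧ Gen z.2).card := by
    rw [mul_sum, ← smul_eq_mul, ← sum_const]
    exact sum_le_sum fun T hT => Pool.Agent.helper80.BP.planted_lower hN2 hT
  have hcov : ∑ T ∈ MT, ((univ : Finset (Inp N q)).filter fun z => IncT T z ∧ Gen z.2).card ≤
      ∑ s : Fin G → Bool, ∑ T ∈ MT, ((univ : Finset (Inp N q)).filter fun z =>
          IncT T z ∧ Gen z.2 ∧ (D s).acc ((D s).run z (r * ℓ))).card := by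
    rw [sum_comm]
    refine sum_le_sum fun T hTm => ?_
    refine le_trans (card_le_card ?_) card_biUnion_le
    intro z hz
    rw [mem_filter] at hz
    have hyes : Yes t z :=
      Pool.Agent.helper80.BP.yes_of_incT hTm hz.2.1
    obtain ⟨s, hs⟩ := hD2 z (r * ℓ) hT (by simpa only [dec_emb] using hyes)
    rw [mem_biUnion]
    exact ⟨s, mem_univ _, by rw [mem_filter]; exact ⟨mem_univ _, hz.2.1, hz.2.2, hs⟩⟩
  have hsum : 3 ^ g * N ^ m * (∑ s : Fin G → Bool, ∑ T ∈ MT,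
      ((univ : Finset (Inp N q)).filter fun z =>
        IncT T z ∧ Gen z.2 ∧ (D s).acc ((D s).run z (r * ℓ))).card) * q ^ t ≤
      2 ^ G * (2 ^ r * MT.card * q ^ (4 * N) * X) := by
    rw [mul_sum, sum_mul]
    refine (sum_le_sum fun s _ => hdet s).trans ?_
    rw [sum_const, smul_eq_mul, card_univ]
    simp
  have hq0 : 0 < q := hqp.pos
  have htot : 3 ^ g * N ^ m * (MT.card * q ^ (4 * N)) ≤
      (MT.card * q ^ (4 * N)) * (2 ^ (G + r + 1) * X) := by
    calc 3 ^ g * N ^ m * (MT.card * q ^ (4 * N))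
        ≤ 3 ^ g * N ^ m * (2 * q ^ t * ∑ s : Fin G → Bool, ∑ T ∈ MT,
          ((univ : Finset (Inp N q)).filter fun z =>
            IncT T z ∧ Gen z.2 ∧ (D s).acc ((D s).run z (r * ℓ))).card) := by
          apply Nat.mul_le_mul_left
          exact hlow.trans (Nat.mul_le_mul_left _ hcov)
      _ = 2 * (3 ^ g * N ^ m * (∑ s : Fin G → Bool, ∑ T ∈ MT,
          ((univ : Finset (Inp N q)).filter fun z =>
            IncT T z ∧ Gen z.2 ∧ (D s).acc ((D s).run z (r * ℓ))).card) * q ^ t) := by ring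
      _ ≤ 2 * (2 ^ G * (2 ^ r * MT.card * q ^ (4 * N) * X)) := Nat.mul_le_mul_left _ hsum
      _ = (MT.card * q ^ (4 * N)) * (2 ^ (G + r + 1) * X) := by ring
  have hmain : 3 ^ g * N ^ m ≤ 2 ^ (G + r + 1) * X := by
    rw [mul_comm (3 ^ g * N ^ m)] at htot
    exact Nat.le_of_mul_le_mul_left htot (by positivity)
  calc 3 ^ g * N ^ m ≤ 2 ^ (G + r + 1) * X := hmain
    _ = 2 ^ (G + r + 2) * ((t + 1) * N ^ m +
          3 ^ g * (M.size * (G + 1) + 1) ^ (r + 1) * (N.choose n0) ^ 2 * q ^ t) := by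
        rw [hX]; ring
    _ ≤ _ := by gcongr



/-- a machine for the empty problem -/
theorem trivial_machine {n : ℕ} (hn : 1 ≤ n) {T G : ℝ} : ∃ M : Machine n 1, M.size ≤ 1 ∧
    Computes M (fun _ => False) T G := by
  refine ⟨⟨Unit, inferInstance, (), fun _ => ⟨0, hn⟩, fun _ _ => ∅, ∅⟩, by simp [Machine.size], ?_⟩
  intro x
  exact ⟨fun T' G' s _ h => h, fun h => h.elim⟩

theorem Computes.mono {n W : ℕ} {M : Machine n W} {f : (Fin n → Fin W) → Prop} {T G T' G' : ℝ}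
    (h : Computes M f T G) (hT : T ≤ T') (hG : G ≤ G') : Computes M f T' G' := by
  intro x
  refine ⟨(h x).1, fun hx => ?_⟩
  obtain ⟨t, g, s, h1, h2, h3, h4⟩ := (h x).2 hx
  exact ⟨t, g, s, h1.trans hT, h2.trans hG, h3, h4⟩

/-- **M13** the theorem -/
theorem final {a b : ℝ} (ha : 0 ≤ a) (ha1 : a < 1) (hab : a < b) :
    ∃ (W : ℕ → ℕ) (f : ∀ n, (Fin n → Fin (W n)) → Prop), (∀ n, W n ≤ (n + 2) ^ 16) ∧
      (∃ C : ℕ, ∀ n, 1 ≤ n → ∃ M : Machine n (W n), M.size ≤ (n + 2) ^ C ∧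
        Computes M (f n) (C * ((n : ℝ) + 1) ^ b) (C * ((n : ℝ) + 1) ^ b)) ∧
      ∃ c : ℝ, 0 < c ∧ ∀ C : ℝ, ∀ᶠ n : ℕ in Filter.atTop, ∀ k : ℕ, 1 ≤ k →
        (k : ℝ) ≤ c * Real.log n → ∀ M : Machine n (W n),
        (M.size : ℝ) ≤ Real.exp (c ^ k * n * Real.log n) →
        ¬ Computes M (f n) (k * n) (C * ((n : ℝ) + 1) ^ a) := by
  obtain ⟨a', haa, ha'⟩ : ∃ a' : ℝ, a < a' ∧ a' < min b 1 := exists_between (lt_min hab ha1)
  have ha1' : a' < 1 := ha'.trans_le (min_le_right _ _)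
  have hab' : a' < b := ha'.trans_le (min_le_left _ _)
  have ha0 : 0 < a' := ha.trans_lt haa
  -- the problem for one `n`
  have key : ∀ n : ℕ, ∃ (W : ℕ) (f : (Fin n → Fin W) → Prop), W ≤ (n + 2) ^ 16 ∧
      (1 ≤ n → ∃ M : Machine n W, M.size ≤ (n + 2) ^ 21 ∧
        Computes M f (3 * ((n : ℝ) + 1) ^ a') (3 * ((n : ℝ) + 1) ^ a' * Nat.clog 2 n)) ∧
      (4 ≤ n → ∀ N t : ℕ, N = 2 ^ (Nat.log 2 n - 1) → t = ⌊(N : ℝ) ^ a'⌋₊ →
        ∀ (K r ℓ n0 m g G T : ℕ) (M : Machine n W), 1 ≤ K → 2 ^ (4 * K + 3) * n0 = N →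
        r * ℓ ≤ K * N → T ≤ r * ℓ → 2 * K ^ 2 ≤ r → g ≤ t → g + m ≤ n0 →
        9 * N ^ 2 * g ≤ (n0 - m - g) ^ 2 * t → Computes M f T G →
        3 ^ g * N ^ m ≤ 2 ^ (G + r + 2) * ((t + 1) * N ^ m +
          3 ^ g * (M.size * (G + 1) + 1) ^ (r + 1) * (N.choose n0) ^ 2 * (2 * N ^ 8) ^ t)) := by
    intro n
    by_cases hn : 4 ≤ n
    · set N : ℕ := 2 ^ (Nat.log 2 n - 1) with hNdef
      have hlog : 2 ≤ Nat.log 2 n := by
        rw [Nat.le_log_iff_pow_le (by norm_num) (by omega)]; omega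
      have h2N : 2 * N ≤ n := by
        have h1 : 2 * N = 2 ^ (Nat.log 2 n) := by
          rw [hNdef, ← pow_succ']; congr 1; omega
        rw [h1]
        exact Nat.pow_log_le_self 2 (by omega)
      have hN : 2 ≤ N := by
        calc 2 = 2 ^ 1 := by norm_num
          _ ≤ 2 ^ (Nat.log 2 n - 1) := Nat.pow_le_pow_right (by norm_num) (by omega)
      have hNr : (1 : ℝ) ≤ N := by exact_mod_cast (by omega : 1 ≤ N)
      set t : ℕ := ⌊(N : ℝ) ^ a'⌋₊ with htdef
      have ht : 1 ≤ t := by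
        rw [htdef, Nat.one_le_floor_iff]
        exact Real.one_le_rpow hNr ha0.le
      have htN : t ≤ N := by
        rw [htdef]
        apply Nat.floor_le_of_le
        calc (N : ℝ) ^ a' ≤ (N : ℝ) ^ (1 : ℝ) := Real.rpow_le_rpow_of_exponent_le hNr ha1'.le
          _ = N := Real.rpow_one _
      obtain ⟨W, f, hW, ⟨M, hM1, hM2⟩, hlow⟩ := per_n (n := n) hN h2N ht htN
      have hNn : N ≤ n := by omega
      refine ⟨W, f, ?_, fun _ => ⟨M, ?_, hM2.mono ?_ ?_⟩, ?_⟩
      · calc W ≤ 4 * N ^ 16 := hW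
          _ ≤ 2 ^ 16 * N ^ 16 := Nat.mul_le_mul_right _ (by norm_num)
          _ = (2 * N) ^ 16 := by rw [mul_pow]
          _ ≤ (n + 2) ^ 16 := Nat.pow_le_pow_left (by omega) _
      · have h1 : t * N ≤ N ^ 2 := by rw [pow_two]; exact Nat.mul_le_mul_right _ htN
        calc M.size ≤ 2 + t * N + t * N * W * N := hM1
          _ ≤ 2 + N ^ 2 + N ^ 2 * (4 * N ^ 16) * N := by
            gcongr
          _ = 2 + N ^ 2 + 4 * N ^ 19 := by ring
          _ ≤ N ^ 19 + N ^ 19 + 4 * N ^ 19 := by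
            gcongr
            · calc 2 ≤ N := hN
                _ = N ^ 1 := (pow_one N).symm
                _ ≤ N ^ 19 := Nat.pow_le_pow_right (by omega) (by norm_num)
            · omega
            · norm_num
          _ ≤ 2 ^ 19 * N ^ 19 := by nlinarith [Nat.zero_le (N ^ 19)]
          _ = (2 * N) ^ 19 := by rw [mul_pow]
          _ ≤ (n + 2) ^ 19 := Nat.pow_le_pow_left (by omega) _
          _ ≤ (n + 2) ^ 21 := Nat.pow_le_pow_right (by omega) (by norm_num)
      · have h1 : (t : ℝ) ≤ ((n : ℝ) + 1) ^ a' := by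
          calc (t : ℝ) ≤ (N : ℝ) ^ a' := Nat.floor_le (by positivity)
            _ ≤ ((n : ℝ) + 1) ^ a' := by
              apply Real.rpow_le_rpow (by positivity) _ ha0.le
              have : (N : ℝ) ≤ n := by exact_mod_cast hNn
              linarith
        have h2 : (1 : ℝ) ≤ ((n : ℝ) + 1) ^ a' := by
          apply Real.one_le_rpow _ ha0.le
          have : (0 : ℝ) ≤ n := by positivity
          linarith
        push_cast
        linarith
      · have h1 : (t : ℝ) ≤ ((n : ℝ) + 1) ^ a' := by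
          calc (t : ℝ) ≤ (N : ℝ) ^ a' := Nat.floor_le (by positivity)
            _ ≤ ((n : ℝ) + 1) ^ a' := by
              apply Real.rpow_le_rpow (by positivity) _ ha0.le
              have : (N : ℝ) ≤ n := by exact_mod_cast hNn
              linarith
        have h2 : (1 : ℝ) ≤ ((n : ℝ) + 1) ^ a' := by
          apply Real.one_le_rpow _ ha0.le
          have : (0 : ℝ) ≤ n := by positivity
          linarith
        have h3 : (Nat.clog 2 N : ℝ) ≤ Nat.clog 2 n := by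
          exact_mod_cast Nat.clog_mono_right 2 hNn
        push_cast
        apply mul_le_mul _ h3 (by positivity) (by positivity)
        linarith
      · intro _ N' t' hN' ht'
        have e1 : N' = N := by rw [hN', hNdef]
        subst e1
        have e2 : t' = t := by rw [ht', htdef]
        subst e2
        exact hlow
    · refine ⟨1, fun _ => False, ?_, ?_, fun h => absurd h hn⟩
      · exact Nat.one_le_pow _ _ (by omega)
      · intro h1
        obtain ⟨M, hM1, hM2⟩ := trivial_machine h1 (T := 3 * ((n : ℝ) + 1) ^ a')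
          (G := 3 * ((n : ℝ) + 1) ^ a' * Nat.clog 2 n)
        exact ⟨M, hM1.trans (Nat.one_le_pow _ _ (by omega)), hM2⟩
  choose W f hW hup hlow using key
  refine ⟨W, f, hW, ?_, ?_⟩
  · -- upper bound
    obtain ⟨C, hC⟩ : ∃ C : ℕ, ∀ n : ℕ, 3 * ((n : ℝ) + 1) ^ a' * (1 + Nat.clog 2 n) ≤
        C * ((n : ℝ) + 1) ^ b := by
      have hδ : 0 < b - a' := by linarith
      refine ⟨⌈3 * (2 + 2 / (b - a'))⌉₊, fun n => ?_⟩
      have hn1 : (1 : ℝ) ≤ (n : ℝ) + 1 := by
        have : (0 : ℝ) ≤ n := by positivity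
        linarith
      have h1 : (Nat.clog 2 n : ℝ) ≤ Nat.log 2 n + 1 := by
        exact_mod_cast Nat.clog_le_of_le_pow (Nat.lt_pow_succ_log_self (by norm_num) n).le
      have h2 : (Nat.log 2 n : ℝ) ≤ 2 * Real.log ((n : ℝ) + 1) := by
        rcases Nat.eq_zero_or_pos n with h0 | h0
        · subst h0; simp
        have h3 := Real.natLog_le_logb n 2
        have h4 : Real.logb 2 n ≤ 2 * Real.log ((n : ℝ) + 1) := by
          rw [Real.logb, div_le_iff₀ (Real.log_pos (by norm_num))]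
          have h5 : Real.log n ≤ Real.log ((n : ℝ) + 1) :=
            Real.log_le_log (by exact_mod_cast h0) (by linarith)
          have h6 : (0.5 : ℝ) ≤ Real.log 2 := by linarith [Real.log_two_gt_d9]
          have h7 : 0 ≤ Real.log ((n : ℝ) + 1) := Real.log_nonneg hn1
          nlinarith
        exact_mod_cast h3.trans (by exact_mod_cast h4)
      have h3 : Real.log ((n : ℝ) + 1) ≤ ((n : ℝ) + 1) ^ (b - a') / (b - a') :=
        Real.log_le_rpow_div (by linarith) hδ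
      have h4 : (1 : ℝ) ≤ ((n : ℝ) + 1) ^ (b - a') := Real.one_le_rpow hn1 hδ.le
      have h5 : 1 + (Nat.clog 2 n : ℝ) ≤ (2 + 2 / (b - a')) * ((n : ℝ) + 1) ^ (b - a') := by
        have h6 : 2 * (((n : ℝ) + 1) ^ (b - a') / (b - a')) =
          2 / (b - a') * ((n : ℝ) + 1) ^ (b - a') := by ring
        nlinarith
      have h6 : ((n : ℝ) + 1) ^ a' * ((n : ℝ) + 1) ^ (b - a') = ((n : ℝ) + 1) ^ b := by
        rw [← Real.rpow_add (by linarith)]; congr 1; ring
      have h7 : (0 : ℝ) ≤ ((n : ℝ) + 1) ^ a' := by positivity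
      calc 3 * ((n : ℝ) + 1) ^ a' * (1 + Nat.clog 2 n)
          ≤ 3 * ((n : ℝ) + 1) ^ a' * ((2 + 2 / (b - a')) * ((n : ℝ) + 1) ^ (b - a')) := by
            apply mul_le_mul_of_nonneg_left h5 (by positivity)
        _ = 3 * (2 + 2 / (b - a')) * (((n : ℝ) + 1) ^ a' * ((n : ℝ) + 1) ^ (b - a')) := by ring
        _ = 3 * (2 + 2 / (b - a')) * ((n : ℝ) + 1) ^ b := by rw [h6]
        _ ≤ _ := mul_le_mul_of_nonneg_right (Nat.le_ceil _) (by positivity)
    refine ⟨max 21 C, fun n hn => ?_⟩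
    obtain ⟨M, hM1, hM2⟩ := hup n hn
    have hpos : (0 : ℝ) ≤ ((n : ℝ) + 1) ^ a' := by positivity
    have hb : (C : ℝ) * ((n : ℝ) + 1) ^ b ≤ (max 21 C : ℕ) * ((n : ℝ) + 1) ^ b := by
      apply mul_le_mul_of_nonneg_right _ (by positivity)
      exact_mod_cast le_max_right _ _
    have h3 : 3 * ((n : ℝ) + 1) ^ a' * (1 + Nat.clog 2 n) =
      3 * ((n : ℝ) + 1) ^ a' + 3 * ((n : ℝ) + 1) ^ a' * Nat.clog 2 n := by ring
    have h4 : 0 ≤ 3 * ((n : ℝ) + 1) ^ a' * Nat.clog 2 n := by positivity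
    have h5 := hC n
    refine ⟨M, hM1.trans (Nat.pow_le_pow_right (by omega) (le_max_left _ _)), hM2.mono ?_ ?_⟩
    · linarith
    · linarith
  · obtain ⟨c, hc, hnum⟩ := Pool.Agent.helper12.BP.numeric ha haa ha1'
    refine ⟨c, hc, fun C => ?_⟩
    filter_upwards [hnum (max C 0), Filter.eventually_ge_atTop 4] with n hn hn4
    intro k hk1 hk M hM hcomp
    set G : ℕ := ⌊max C 0 * ((n : ℝ) + 1) ^ a⌋₊ with hG
    have hG0 : 0 ≤ max C 0 * ((n : ℝ) + 1) ^ a := by
      have : 0 ≤ max C 0 := le_max_right _ _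
      positivity
    obtain ⟨K, r, ℓ, n0, m, g, h1, h2, h3, h4, h5, h6, h7, h8, h9⟩ :=
      hn k hk1 hk _ _ M.size G rfl rfl hM (Nat.floor_le hG0)
    have hcomp' : Computes M (f n) (k * n : ℕ) (G : ℕ) := by
      intro x
      refine ⟨(hcomp x).1, fun hx => ?_⟩
      obtain ⟨T', G', s, e1, e2, e3, e4⟩ := (hcomp x).2 hx
      refine ⟨T', G', s, by push_cast; exact e1, ?_, e3, e4⟩
      have : G' ≤ G := by
        rw [hG]
        apply Nat.le_floor
        refine e2.trans (mul_le_mul_of_nonneg_right (le_max_left _ _) (by positivity))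
      exact_mod_cast this
    have := hlow n hn4 _ _ rfl rfl K r ℓ n0 m g G (k * n) M h1 h2 h3 h4 h5 h6 h7 h8 hcomp'
    exact absurd h9 (not_lt.mpr this)

end Pool.Agent.helper24.BP
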